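import Pool.Agent.TH762.WD.SacLaw

/-!
# LOGCFL is contained in L iff L can name wrong values of functions in LOGCFL

We work with predicates and functions of a word over an alphabet of `m` symbols and of natural
numbers in unary. `LF` is the smallest class of functions which contains the zero function, the
successor, the projections, `(x + 1) * (y + 1)`, the length of the word and its symbols, and is
closed under composition and limited recursion (logarithmic space). `SF` is the smallest such class
which is closed under semiunbounded recursion with logarithmically many steps: `F (t + 1, i, v) = 1`
iff for some `j` up to a bound `β v` the places `p (t, j, i, v)` and `q (t, j, i, v)` are both derived
in `t` steps, where the number of steps is at most `T v` and `2 ^ T v` is bounded by a function of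
the class. These are the semiunbounded circuits of logarithmic depth, so `Pd SF` is LOGCFL, the
class of languages reducible to context-free languages in logarithmic space (Venkateswaran).
`Pd LF` is L.

Theorem: LOGCFL is contained in L if and only if for some constant `k` for each function `f` of
a word and a number with values `0, ..., k` in LOGCFL there is a function `g` with values `0, ..., k`
in L with `g ≠ f` everywhere. For `k = 1` this is the same as computing `f`.

Proof: the values at `k` places of a recursion are coded by a number; for any `k + 1` codes the
number of those codes which are at most the true one is a function with values `0, ..., k`, so one
of the codes is excluded. So there is a list of at most `k` candidates for the values at any `k`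
places. By `MC.world` for some `d < k` there are `k - d - 1` places such that their true values
together with the value at one further place survive the extensions by `d` places in exactly one way.
By bounded quantifiers one guesses the values at the `k - d - 1` places, and checks with the
recursion whether the values which they give are right.
-/

set_option autoImplicit false

namespace Pool.Agent.Results.MP_26f0da_lc.AvoidedDerivation

open Pool.Agent.TH762.WD

/-- LOGCFL is contained in L iff for some `k` the functions in LOGCFL with values `0..k` are avoided
by functions with values `0..k` in L. -/
theorem result (m : ℕ) :
    (∀ (n : ℕ) (R : List (Fin m) → (Fin n → ℕ) → Prop), R ∈ Pd SF n → R ∈ Pd LF n) ↔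
      ∃ k : ℕ, Avoid (W := List (Fin m)) SF (Pd LF) k :=
  law_SF (clo_Pd fcl_LF) (inp_Pd fcl_LF)

end Pool.Agent.Results.MP_26f0da_lc.AvoidedDerivation
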