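import Pool.Agent.Helper925.SW.BinNe

/-!
# A two-generated semigroup whose word problem decides whether `CFL ⊆ LOGSPACE`

There is one semigroup `S` with two generators such that its word problem is context-free and every
context-free language is the inverse image of the word problem under some map `w ↦ x h(w) y`. Hence
every context-free language is in `LOGSPACE` if and only if the word problem of `S` is, if and only
if all context-free word problems of finitely generated semigroups are. Logarithmic space is taken in
the form of the frozen statement `S14499`: deterministic two-way multi-head automata. The semigroup
is a Rees quotient of the free semigroup on two generators; it is `𝓙`-trivial and residually finite.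

The proof. (1) A semantic form of Greibach's normal form: from a grammar one gets a finite set of
stack symbols, the items and the pairs of an item and a rule (left corners), such that the nonempty
words are those accepted by empty stack by a machine which reads one letter in each move and
replaces the top symbol by at most three symbols. (2) Greibach's hardest language: blocks of
alternatives, which are words of brackets of two types; a word belongs to it if the concatenation of
suitable alternatives, one of each block, is a word of matching brackets. It is context-free as the
image of the language of matching brackets under a finite transducer (transducers by helper79).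
(3) The ideal of all binary words with a factor `11 c(w) 1`, `w` in the hardest language, `c` a
binary code without `11`; the word problem of the Rees quotient consists of the words `u # uʳ` and
the words `u # vʳ` with `u` and `v` in the ideal, so it is context-free, and `11 c(w) 1` is zero in
the quotient if and only if `w` is in the hardest language. (4) A multi-head automaton for a language
is changed into one for its inverse image: a head on `x h(w) y` is a head on `w` and a place in a
word `x`, `h(a)` or `y`, which is kept in the finite control.
-/

set_option autoImplicit false

namespace Pool.Agent.Results.MP_26f0da_lc.SemigroupWordProblem

open Pool.Agent.Helper925.SW Pool.Agent.W399.WP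

/-- There is a semigroup `S` with two generators, a Rees quotient of a free semigroup, `𝓙`-trivial and
residually finite, such that its word problem is context-free, every context-free language is the
inverse image of it under some map `w ↦ x h(w) y`, and the following are equivalent: all context-free
languages are in deterministic logarithmic space; the word problem of `S` is; all context-free word
problems of finitely generated semigroups are. -/
theorem result : ∃ (S : Type) (_ : Semigroup S) (φ : Bool → S),
    ReesFree φ ∧ JTrivial S ∧ ResiduallyFinite S ∧ (WordProblem φ).IsContextFree ∧
    (∀ (A : Type) [Finite A] (L : Language A), L.IsContextFree →
      ∃ (x y : List (Option Bool)) (h : A → List (Option Bool)),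
        x ≠ [] ∧ y ≠ [] ∧ (∀ a, h a ≠ []) ∧
        ∀ w : List A, w ∈ L ↔ x ++ w.flatMap h ++ y ∈ WordProblem φ) ∧
    List.TFAE [
      ∀ (α : Type) [Fintype α] (g : ContextFreeGrammar α), MultiHead g.language,
      MultiHead (WordProblem φ),
      ∀ (S' : Type) [Semigroup S'] (A : Type) [Finite A] (ψ : A → S'),
        (∀ s : S', ∃ a u, ev ψ a u = s) → (WordProblem ψ).IsContextFree →
          MultiHead (WordProblem ψ)] := by
  refine ⟨S0, inferInstance, phi0, reesFree0, jTrivial IB IB_left IB_right,
    residuallyFinite IB IB_left IB_right, wp0_cf, fun A _ L hL => universal_ne hL, ?_⟩
  tfae_have 1 → 3 := by
    intro h S' _ A _ ψ _ hψ
    have := Fintype.ofFinite A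
    obtain ⟨g, hg⟩ := hψ
    rw [← hg]
    exact h _ g
  tfae_have 3 → 2 := fun h => h S0 Bool phi0 reesFree0.1 wp0_cf
  tfae_have 2 → 1 := by
    intro h2 α _ g
    have hg : g.language.IsContextFree := ⟨g, rfl⟩
    obtain ⟨x, y, h, hx, _, hh, hw⟩ := universal_ne hg
    have h1 := multiHead_inv h x y hx hh h2
    have h3 : ({w : List α | x ++ w.flatMap h ++ y ∈ WordProblem phi0} : Language α) =
        g.language := by
      ext w
      exact (hw w).symm
    rw [h3] at h1
    exact h1
  tfae_finish

end Pool.Agent.Results.MP_26f0da_lc.SemigroupWordProblem
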